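import Pool.Agent.MP_515557_an.H65.RC

set_option autoImplicit false

namespace Pool.Agent.MP_515557_an.H65

open Complex ComplexConjugate

/-- The real matrix with three complex columns. -/
def cm (p q r : ℂ) : Mat := !![p.re, q.re, r.re; p.im, q.im, r.im]

theorem cm_bound (p q r : ℂ) (c : ℝ) (hp : ‖p‖ ≤ c) (hq : ‖q‖ ≤ c) (hr : ‖r‖ ≤ c)
    (i : Fin 2) (j : Fin 3) : |cm p q r i j| ≤ c := by
  fin_cases i <;> fin_cases j <;> simp [cm]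
  · exact (Complex.abs_re_le_norm _).trans hp
  · exact (Complex.abs_re_le_norm _).trans hq
  · exact (Complex.abs_re_le_norm _).trans hr
  · exact (Complex.abs_im_le_norm _).trans hp
  · exact (Complex.abs_im_le_norm _).trans hq
  · exact (Complex.abs_im_le_norm _).trans hr

/-- The differential of the deltoid map. -/
noncomputable def dl (σ z : ℂ) : ℂ := z + conj σ * conj z

theorem norm_dl (σ z : ℂ) (hσ : ‖σ‖ ≤ 1) : ‖dl σ z‖ ≤ 2 * ‖z‖ := by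
  unfold dl
  refine (norm_add_le _ _).trans ?_
  rw [norm_mul, Complex.norm_conj, Complex.norm_conj]
  nlinarith [norm_nonneg z, norm_nonneg σ]

theorem dl_re (σ z : ℂ) : (dl σ z).re = z.re + (σ.re * z.re - σ.im * z.im) := by
  simp [dl]

theorem dl_im (σ z : ℂ) : (dl σ z).im = z.im - (σ.re * z.im + σ.im * z.re) := by
  simp [dl]; ring

/-- The gradient of the simple wave. -/
noncomputable def Gm (σ w : ℂ) : Mat :=
  cm (dl σ (2 * σ * w)) (dl σ ((σ ^ 2 + 1) * w)) (dl σ (I * (σ ^ 2 - 1) * w))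

theorem Gm_bound (σ w : ℂ) (hσ : ‖σ‖ ≤ 1) (i : Fin 2) (j : Fin 3) : |Gm σ w i j| ≤ 4 * ‖w‖ := by
  have h2 : ‖σ ^ 2‖ ≤ 1 := by rw [norm_pow]; exact pow_le_one₀ (norm_nonneg _) hσ
  have hv := norm_nonneg w
  refine cm_bound _ _ _ _ ((norm_dl _ _ hσ).trans ?_) ((norm_dl _ _ hσ).trans ?_)
    ((norm_dl _ _ hσ).trans ?_) i j
  · rw [norm_mul, norm_mul]
    simp only [Complex.norm_ofNat]
    nlinarith
  · have h3 : ‖σ ^ 2 + 1‖ ≤ 2 := (norm_add_le _ _).trans (by rw [norm_one]; linarith)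
    rw [norm_mul]
    nlinarith
  · have h3 : ‖σ ^ 2 - 1‖ ≤ 2 := (norm_sub_le _ _).trans (by rw [norm_one]; linarith)
    rw [norm_mul, norm_mul, Complex.norm_I]
    nlinarith

theorem Gm_d1 (σ w : ℂ) : Gm σ w 0 1 + Gm σ w 1 2 - Gm σ w 0 0 = 0 := by
  simp [Gm, cm, dl_re, dl_im, sq]; ring

theorem Gm_d2 (σ w : ℂ) : Gm σ w 1 1 - Gm σ w 0 2 + Gm σ w 1 0 = 0 := by
  simp [Gm, cm, dl_re, dl_im, sq]; ring

theorem minor_dl (σ p q : ℂ) :
    (dl σ p).re * (dl σ q).im - (dl σ q).re * (dl σ p).im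
      = (1 - (σ.re ^ 2 + σ.im ^ 2)) * (p.re * q.im - q.re * p.im) := by
  simp only [dl_re, dl_im]; ring

theorem minor_mul (w p q : ℂ) :
    (p * w).re * (q * w).im - (q * w).re * (p * w).im
      = (w.re ^ 2 + w.im ^ 2) * (p.re * q.im - q.re * p.im) := by
  simp only [Complex.mul_re, Complex.mul_im]; ring

theorem PP_cm (p q r : ℂ) : PP (cm p q r) = (p.re * q.im - q.re * p.im) ^ 2
    + (p.re * r.im - r.re * p.im) ^ 2 - (q.re * r.im - r.re * q.im) ^ 2 := by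
  simp [PP, cm]

theorem PP_Gm (σ w : ℂ) : PP (Gm σ w) = -((1 - ‖σ‖ ^ 2) ^ 6 * ‖w‖ ^ 4) := by
  have h : ‖w‖ ^ 4 = (‖w‖ ^ 2) ^ 2 := by ring
  rw [h, Complex.sq_norm, Complex.sq_norm, Complex.normSq_apply, Complex.normSq_apply,
    Gm, PP_cm, minor_dl, minor_dl, minor_dl, minor_mul, minor_mul, minor_mul]
  have a1 : (2 * σ).re = 2 * σ.re := by simp
  have a2 : (2 * σ).im = 2 * σ.im := by simp
  have a3 : (σ ^ 2 + 1).re = σ.re ^ 2 - σ.im ^ 2 + 1 := by simp [sq]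
  have a4 : (σ ^ 2 + 1).im = 2 * σ.re * σ.im := by simp [sq]; ring
  have a5 : (I * (σ ^ 2 - 1)).re = -(2 * σ.re * σ.im) := by simp [sq]; ring
  have a6 : (I * (σ ^ 2 - 1)).im = σ.re ^ 2 - σ.im ^ 2 - 1 := by simp [sq]
  rw [a1, a2, a3, a4, a5, a6]
  ring

theorem minor_perturb (a b c d a' b' c' d' g e : ℝ)
    (ha : |a| ≤ g) (hb : |b| ≤ g) (hc : |c| ≤ g) (hd : |d| ≤ g)
    (ha' : |a'| ≤ g) (hb' : |b'| ≤ g) (hc' : |c'| ≤ g) (hd' : |d'| ≤ g)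
    (ea : |a' - a| ≤ e) (eb : |b' - b| ≤ e) (ec : |c' - c| ≤ e) (ed : |d' - d| ≤ e) :
    |(a' * d' - b' * c') ^ 2 - (a * d - b * c) ^ 2| ≤ 16 * g ^ 3 * e := by
  have hg : 0 ≤ g := (abs_nonneg _).trans ha
  have he : 0 ≤ e := (abs_nonneg _).trans ea
  have m : ∀ x y u w : ℝ, |x| ≤ u → |y| ≤ w → |x * y| ≤ u * w := fun x y u w hx hy => by
    rw [abs_mul]; exact mul_le_mul hx hy (abs_nonneg _) ((abs_nonneg _).trans hx)
  have h1 : |(a' * d' - b' * c') - (a * d - b * c)| ≤ 4 * (g * e) := by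
    have e1 : (a' * d' - b' * c') - (a * d - b * c)
        = a' * (d' - d) + d * (a' - a) - b' * (c' - c) - c * (b' - b) := by ring
    have := m _ _ _ _ ha' ed
    have := m _ _ _ _ hd ea
    have := m _ _ _ _ hb' ec
    have := m _ _ _ _ hc eb
    rw [e1, abs_le] at *
    constructor <;> linarith
  have h2 : |(a' * d' - b' * c') + (a * d - b * c)| ≤ 4 * (g * g) := by
    have := m _ _ _ _ ha' hd'
    have := m _ _ _ _ hb' hc'
    have := m _ _ _ _ ha hd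
    have := m _ _ _ _ hb hc
    rw [abs_le] at *
    constructor <;> linarith
  have e2 : (a' * d' - b' * c') ^ 2 - (a * d - b * c) ^ 2
      = ((a' * d' - b' * c') - (a * d - b * c)) * ((a' * d' - b' * c') + (a * d - b * c)) := by ring
  rw [e2]
  refine (m _ _ _ _ h1 h2).trans (le_of_eq (by ring))

theorem PP_perturb (A B : Mat) (g e : ℝ) (hA : ∀ i j, |A i j| ≤ g) (hB : ∀ i j, |B i j| ≤ g)
    (hE : ∀ i j, |B i j - A i j| ≤ e) : PP B ≤ PP A + 48 * g ^ 3 * e := by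
  have h1 := minor_perturb (A 0 0) (A 0 1) (A 1 0) (A 1 1) (B 0 0) (B 0 1) (B 1 0) (B 1 1) g e
    (hA _ _) (hA _ _) (hA _ _) (hA _ _) (hB _ _) (hB _ _) (hB _ _) (hB _ _)
    (hE _ _) (hE _ _) (hE _ _) (hE _ _)
  have h2 := minor_perturb (A 0 0) (A 0 2) (A 1 0) (A 1 2) (B 0 0) (B 0 2) (B 1 0) (B 1 2) g e
    (hA _ _) (hA _ _) (hA _ _) (hA _ _) (hB _ _) (hB _ _) (hB _ _) (hB _ _)
    (hE _ _) (hE _ _) (hE _ _) (hE _ _)
  have h3 := minor_perturb (A 0 1) (A 0 2) (A 1 1) (A 1 2) (B 0 1) (B 0 2) (B 1 1) (B 1 2) g e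
    (hA _ _) (hA _ _) (hA _ _) (hA _ _) (hB _ _) (hB _ _) (hB _ _) (hB _ _)
    (hE _ _) (hE _ _) (hE _ _) (hE _ _)
  rw [abs_le] at h1 h2 h3
  unfold PP
  linarith [h1.2, h2.2, h3.1]

theorem NN_le (B : Mat) (g : ℝ) (hB : ∀ i j, |B i j| ≤ g) : NN B ≤ 6 * g ^ 2 := by
  have h : ∀ i j, B i j ^ 2 ≤ g ^ 2 := fun i j => by
    rw [← sq_abs]; exact pow_le_pow_left₀ (abs_nonneg _) (hB i j) 2
  unfold NN
  linarith [h 0 0, h 0 1, h 0 2, h 1 0, h 1 1, h 1 2]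

theorem DD_le (B : Mat) (g : ℝ) (hB : ∀ i j, |B i j| ≤ g) : DD B ≤ 18 * g ^ 2 := by
  have h1 : |B 0 1 + B 1 2 - B 0 0| ≤ 3 * g := by
    have := hB 0 1
    have := hB 1 2
    have := hB 0 0
    rw [abs_le] at *
    constructor <;> linarith
  have h2 : |B 1 1 - B 0 2 + B 1 0| ≤ 3 * g := by
    have := hB 1 1
    have := hB 0 2
    have := hB 1 0
    rw [abs_le] at *
    constructor <;> linarith
  have h3 := pow_le_pow_left₀ (abs_nonneg _) h1 2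
  have h4 := pow_le_pow_left₀ (abs_nonneg _) h2 2
  rw [sq_abs] at h3 h4
  unfold DD
  linarith

theorem young3 (b β η : ℝ) (hb : 0 ≤ b) (hβ : 0 ≤ β) (hη : 0 < η) :
    b ^ 3 * β ≤ η * b ^ 4 + (η ^ 3)⁻¹ * β ^ 4 := by
  by_cases h : β ≤ η * b
  · have h1 : b ^ 3 * β ≤ b ^ 3 * (η * b) := mul_le_mul_of_nonneg_left h (by positivity)
    have h2 : 0 ≤ (η ^ 3)⁻¹ * β ^ 4 := by positivity
    nlinarith
  · push Not at h
    have h1 : (η * b) ^ 3 ≤ β ^ 3 := pow_le_pow_left₀ (by positivity) h.le 3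
    have h2 : b ^ 3 ≤ (η ^ 3)⁻¹ * β ^ 3 := by
      rw [le_inv_mul_iff₀ (by positivity), ← mul_pow]; exact h1
    have h3 : b ^ 3 * β ≤ (η ^ 3)⁻¹ * β ^ 3 * β := mul_le_mul_of_nonneg_right h2 hβ
    have h4 : 0 ≤ η * b ^ 4 := by positivity
    nlinarith

theorem young2 (b l : ℝ) (hl : 0 < l) : b ^ 2 ≤ l * b ^ 4 + l⁻¹ := by
  have h1 : l * b ^ 4 + l⁻¹ - 2 * b ^ 2 = l⁻¹ * (l * b ^ 2 - 1) ^ 2 := by
    field_simp; ring
  have h2 : 0 ≤ l⁻¹ * (l * b ^ 2 - 1) ^ 2 := by positivity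
  nlinarith [sq_nonneg b]

theorem pointwise_bound (G1 GM T : Mat) (χ b β κ η l : ℝ)
    (hχ0 : 0 ≤ χ) (hχ1 : χ ≤ 1) (hβ0 : 0 ≤ β) (hβb : β ≤ b) (hb1 : b ≤ 1)
    (hκ1 : κ ≤ 1) (hη : 0 < η) (hl : 0 < l)
    (h1 : ∀ i j, |G1 i j| ≤ 2 * b) (hM : ∀ i j, |GM i j| ≤ 2 * β) (hT : ∀ i j, |T i j| ≤ κ * b)
    (d1 : G1 0 1 + G1 1 2 - G1 0 0 = 0) (d2 : G1 1 1 - G1 0 2 + G1 1 0 = 0)
    (d3 : GM 0 1 + GM 1 2 - GM 0 0 = 0) (d4 : GM 1 1 - GM 0 2 + GM 1 0 = 0) :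
    WW η (χ • G1 - χ • GM + T) ≤ χ ^ 4 * PP G1
      + (12000 * η + 6000 * κ + 3375000 * η + 18 * η⁻¹ * κ ^ 2 * l) * b ^ 4
      + 12000 * (η ^ 3)⁻¹ * β ^ 4 + 18 * η⁻¹ * κ ^ 2 * l⁻¹ := by
  have hb0 : 0 ≤ b := hβ0.trans hβb
  have hκb : κ * b ≤ b := by nlinarith
  have hA : ∀ i j, |(χ • G1) i j| ≤ 2 * b := fun i j => by
    rw [Matrix.smul_apply, smul_eq_mul, abs_mul, abs_of_nonneg hχ0]
    have := h1 i j
    nlinarith [abs_nonneg (G1 i j)]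
  have hA2 : ∀ i j, |(χ • GM) i j| ≤ 2 * β := fun i j => by
    rw [Matrix.smul_apply, smul_eq_mul, abs_mul, abs_of_nonneg hχ0]
    have := hM i j
    nlinarith [abs_nonneg (GM i j)]
  have hE : ∀ i j, |(χ • G1 - χ • GM + T) i j - (χ • G1) i j| ≤ 2 * β + κ * b := fun i j => by
    have := hA2 i j
    have := hT i j
    rw [Matrix.add_apply, Matrix.sub_apply]
    rw [abs_le] at *
    constructor <;> linarith
  have hB : ∀ i j, |(χ • G1 - χ • GM + T) i j| ≤ 5 * b := fun i j => by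
    have := hA i j
    have := hE i j
    rw [abs_le] at *
    constructor <;> linarith
  have p1 := PP_perturb (χ • G1) _ (5 * b) _ (fun i j => (hA i j).trans (by linarith)) hB hE
  have p2 : PP (χ • G1) = χ ^ 4 * PP G1 := by
    simp only [PP, Matrix.smul_apply, smul_eq_mul]; ring
  have p3 := NN_le _ _ hB
  have p4 : DD (χ • G1 - χ • GM + T) = DD T := by
    simp only [DD, Matrix.add_apply, Matrix.sub_apply, Matrix.smul_apply, smul_eq_mul]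
    have e1 : χ * G1 0 1 - χ * GM 0 1 + T 0 1 + (χ * G1 1 2 - χ * GM 1 2 + T 1 2)
        - (χ * G1 0 0 - χ * GM 0 0 + T 0 0) = T 0 1 + T 1 2 - T 0 0 := by
      linear_combination χ * d1 - χ * d3
    have e2 : χ * G1 1 1 - χ * GM 1 1 + T 1 1 - (χ * G1 0 2 - χ * GM 0 2 + T 0 2)
        + (χ * G1 1 0 - χ * GM 1 0 + T 1 0) = T 1 1 - T 0 2 + T 1 0 := by
      linear_combination χ * d2 - χ * d4
    rw [e1, e2]
  have p5 := DD_le _ _ hT
  have p6 : NN (χ • G1 - χ • GM + T) ^ 3 ≤ 3375000 * b ^ 4 := by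
    have a1 : 0 ≤ NN (χ • G1 - χ • GM + T) := by unfold NN; positivity
    have a2 := pow_le_pow_left₀ a1 p3 3
    have a3 : b ^ 6 ≤ b ^ 4 := pow_le_pow_of_le_one hb0 hb1 (by norm_num)
    have a4 : (6 * (5 * b) ^ 2) ^ 3 = 3375000 * b ^ 6 := by ring
    linarith
  have p7 := young3 b β η hb0 hβ0 hη
  have p8 := young2 b l hl
  have p9 : η * NN (χ • G1 - χ • GM + T) ^ 3 ≤ η * (3375000 * b ^ 4) :=
    mul_le_mul_of_nonneg_left p6 hη.le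
  have p10 : η⁻¹ * DD T ≤ η⁻¹ * (18 * κ ^ 2 * (l * b ^ 4 + l⁻¹)) := by
    refine mul_le_mul_of_nonneg_left (p5.trans ?_) (by positivity)
    have : κ ^ 2 * b ^ 2 ≤ κ ^ 2 * (l * b ^ 4 + l⁻¹) := mul_le_mul_of_nonneg_left p8 (sq_nonneg κ)
    calc 18 * (κ * b) ^ 2 = 18 * (κ ^ 2 * b ^ 2) := by ring
      _ ≤ 18 * (κ ^ 2 * (l * b ^ 4 + l⁻¹)) := by linarith
      _ = _ := by ring
  unfold WW
  rw [p4]
  rw [p2] at p1
  have p11 : 48 * (5 * b) ^ 3 * (2 * β + κ * b) = 12000 * (b ^ 3 * β) + 6000 * κ * b ^ 4 := by ring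
  rw [p11] at p1
  nlinarith

end Pool.Agent.MP_515557_an.H65
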