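import Pool.Agent.MP_515557_an.H65.Sigma

set_option autoImplicit false

namespace Pool.Agent.MP_515557_an.H65

open MeasureTheory Real

theorem integrable_kern {m : ℝ} (hm : 0 < m) : Integrable (fun t : ℝ => (t ^ 2 + m ^ 2)⁻¹) := by
  have h := (integrable_inv_one_add_sq.comp_div hm.ne').const_mul (m ^ 2)⁻¹
  refine h.congr (Filter.Eventually.of_forall fun t => ?_)
  simp only
  field_simp
  ring

theorem integral_kern {m : ℝ} (hm : 0 < m) : ∫ t : ℝ, (t ^ 2 + m ^ 2)⁻¹ = π / m := by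
  have h1 : (fun t : ℝ => (t ^ 2 + m ^ 2)⁻¹)
      = fun t : ℝ => (m ^ 2)⁻¹ * (fun x : ℝ => (1 + x ^ 2)⁻¹) (t / m) := by
    funext t
    simp only
    field_simp
    ring
  rw [h1, integral_const_mul, Measure.integral_comp_div (fun x : ℝ => (1 + x ^ 2)⁻¹),
    integral_univ_inv_one_add_sq, abs_of_pos hm, smul_eq_mul]
  field_simp

theorem lintegral_kern {m : ℝ} (hm : 0 < m) (r : ℝ) :
    ∫⁻ t : ℝ, ENNReal.ofReal ((((t - r) ^ 2 + m ^ 2)⁻¹ + ((t + r) ^ 2 + m ^ 2)⁻¹) / 2)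
      = ENNReal.ofReal (π / m) := by
  have i1 := (integrable_kern hm).comp_sub_right r
  have i2 := (integrable_kern hm).comp_add_right r
  have i3 : Integrable
      (fun t : ℝ => (((t - r) ^ 2 + m ^ 2)⁻¹ + ((t + r) ^ 2 + m ^ 2)⁻¹) / 2) :=
    (i1.add i2).div_const 2
  rw [← ofReal_integral_eq_lintegral_ofReal i3
    (Filter.Eventually.of_forall fun t => by positivity)]
  congr 1
  rw [integral_div, integral_add i1 i2,
    integral_sub_right_eq_self (fun t : ℝ => (t ^ 2 + m ^ 2)⁻¹) r,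
    integral_add_right_eq_self (fun t : ℝ => (t ^ 2 + m ^ 2)⁻¹) r, integral_kern hm]
  ring

/-- The truncated weight. -/
noncomputable def hI (T : ℝ) : ℝ → ℝ := (Set.Ioo (-T) T).indicator fun x => (√(1 + x ^ 2))⁻¹

theorem hI_nonneg (T x : ℝ) : 0 ≤ hI T x :=
  Set.indicator_nonneg (fun _ _ => by positivity) x

theorem continuous_wt : Continuous fun x : ℝ => (√(1 + x ^ 2))⁻¹ := by
  refine Continuous.inv₀ (by fun_prop) fun x => ?_
  positivity

theorem integrable_hI (T : ℝ) : Integrable (hI T) := by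
  unfold hI
  rw [integrable_indicator_iff measurableSet_Ioo]
  exact (continuous_wt.integrableOn_Icc).mono_set Set.Ioo_subset_Icc_self

theorem measurable_hI (T : ℝ) : Measurable (hI T) :=
  continuous_wt.measurable.indicator measurableSet_Ioo

theorem integral_hI {T : ℝ} (hT : 0 ≤ T) : ∫ x, hI T x = 2 * arsinh T := by
  unfold hI
  rw [integral_indicator measurableSet_Ioo, ← integral_Ioc_eq_integral_Ioo,
    ← intervalIntegral.integral_of_le (by linarith),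
    intervalIntegral.integral_eq_sub_of_hasDerivAt (fun x _ => hasDerivAt_arsinh x)
      (continuous_wt.intervalIntegrable _ _), arsinh_neg]
  ring

theorem lintegral_hI {T : ℝ} (hT : 0 ≤ T) :
    ∫⁻ z : Fin 2 → ℝ, ENNReal.ofReal (hI T (z 0) * hI T (z 1))
      = ENNReal.ofReal ((2 * arsinh T) ^ 2) := by
  have e : (fun z : Fin 2 → ℝ => hI T (z 0) * hI T (z 1)) = fun z => ∏ i, hI T (z i) := by
    funext z; rw [Fin.prod_univ_two]
  have hi : Integrable (fun z : Fin 2 → ℝ => hI T (z 0) * hI T (z 1)) := by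
    rw [e]
    exact Integrable.fintype_prod (f := fun _ : Fin 2 => hI T) fun _ => integrable_hI T
  rw [← ofReal_integral_eq_lintegral_ofReal hi
    (Filter.Eventually.of_forall fun z => mul_nonneg (hI_nonneg _ _) (hI_nonneg _ _)), e,
    integral_fintype_prod_volume_eq_pow (hI T), integral_hI hT]
  simp

theorem pt_bound {m : ℝ} (hm : 1 ≤ m) (X : Pt) :
    ‖ss m X‖⁻¹ ^ 4 ≤ ((((X 0 - rr X) ^ 2 + m ^ 2)⁻¹ + ((X 0 + rr X) ^ 2 + m ^ 2)⁻¹) / 2)
      * ((√(1 + X 1 ^ 2))⁻¹ * (√(1 + X 2 ^ 2))⁻¹) := by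
  have hm0 : 0 < m := by linarith
  rw [inv_pow, norm_ss_pow, ← mul_inv, ← Real.sqrt_mul (by positivity)]
  have hr := rr_sq X
  have h1 : √((1 + X 1 ^ 2) * (1 + X 2 ^ 2)) ≤ X 0 ^ 2 + rr X ^ 2 + m ^ 2 := by
    rw [Real.sqrt_le_left (by positivity), hr]
    have a1 : 1 + X 1 ^ 2 ≤ X 0 ^ 2 + (X 1 ^ 2 + X 2 ^ 2) + m ^ 2 := by
      nlinarith [sq_nonneg (X 0), sq_nonneg (X 2)]
    have a2 : 1 + X 2 ^ 2 ≤ X 0 ^ 2 + (X 1 ^ 2 + X 2 ^ 2) + m ^ 2 := by
      nlinarith [sq_nonneg (X 0), sq_nonneg (X 1)]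
    rw [sq (X 0 ^ 2 + (X 1 ^ 2 + X 2 ^ 2) + m ^ 2)]
    exact mul_le_mul a1 a2 (by positivity) (by positivity)
  have h2 : 0 < √((1 + X 1 ^ 2) * (1 + X 2 ^ 2)) := by positivity
  have h3 : (X 0 ^ 2 + rr X ^ 2 + m ^ 2)⁻¹ ≤ (√((1 + X 1 ^ 2) * (1 + X 2 ^ 2)))⁻¹ :=
    inv_anti₀ h2 h1
  have h4 : (((X 0 - rr X) ^ 2 + m ^ 2) * ((X 0 + rr X) ^ 2 + m ^ 2))⁻¹
      = ((((X 0 - rr X) ^ 2 + m ^ 2)⁻¹ + ((X 0 + rr X) ^ 2 + m ^ 2)⁻¹) / 2)
        * (X 0 ^ 2 + rr X ^ 2 + m ^ 2)⁻¹ := by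
    field_simp
    ring
  rw [h4]
  exact mul_le_mul_of_nonneg_left h3 (by positivity)

theorem continuous_inv_ss {m : ℝ} (hm : 0 < m) : Continuous fun X : Pt => ‖ss m X‖⁻¹ :=
  (contDiff_ss hm).continuous.norm.inv₀ fun X => norm_ne_zero_iff.mpr (ss_ne hm X)

theorem continuous_inv_ss4 {m : ℝ} (hm : 0 < m) : Continuous fun X : Pt => ‖ss m X‖⁻¹ ^ 4 :=
  (continuous_inv_ss hm).pow 4

theorem integral_ss_le {m T : ℝ} (hm : 1 ≤ m) (hT : 0 ≤ T) :
    ∫ X in Metric.ball (0 : Pt) T, ‖ss m X‖⁻¹ ^ 4 ≤ π / m * (2 * arsinh T) ^ 2 := by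
  have hm0 : 0 < m := by linarith
  rw [integral_eq_lintegral_of_nonneg_ae (Filter.Eventually.of_forall fun X => by positivity)
    (continuous_inv_ss4 hm0).aestronglyMeasurable]
  refine ENNReal.toReal_le_of_le_ofReal (by positivity) ?_
  let g : ℝ × (Fin 2 → ℝ) → ENNReal := fun p =>
    ENNReal.ofReal ((((p.1 - √(p.2 0 ^ 2 + p.2 1 ^ 2)) ^ 2 + m ^ 2)⁻¹
      + ((p.1 + √(p.2 0 ^ 2 + p.2 1 ^ 2)) ^ 2 + m ^ 2)⁻¹) / 2)
      * ENNReal.ofReal (hI T (p.2 0) * hI T (p.2 1))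
  have hg : Measurable g := by
    have := measurable_hI T
    refine Measurable.mul (Measurable.ennreal_ofReal (by fun_prop))
      (Measurable.ennreal_ofReal (by fun_prop))
  have hmp := volume_preserving_piFinSuccAbove (fun _ : Fin 3 => ℝ) 0
  have h1 : ∫⁻ X in Metric.ball (0 : Pt) T, ENNReal.ofReal (‖ss m X‖⁻¹ ^ 4)
      ≤ ∫⁻ X : Pt, g (MeasurableEquiv.piFinSuccAbove (fun _ : Fin 3 => ℝ) 0 X) := by
    refine le_trans (setLIntegral_mono' Metric.isOpen_ball.measurableSet fun X hX => ?_)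
      (setLIntegral_le_lintegral _ _)
    have hc : ∀ i, X i ∈ Set.Ioo (-T) T := fun i => by
      have := lt_of_le_of_lt (norm_le_pi_norm X i) (mem_ball_zero_iff.mp hX)
      rw [Real.norm_eq_abs, abs_lt] at this
      exact this
    have e : g (MeasurableEquiv.piFinSuccAbove (fun _ : Fin 3 => ℝ) 0 X)
        = ENNReal.ofReal ((((X 0 - rr X) ^ 2 + m ^ 2)⁻¹ + ((X 0 + rr X) ^ 2 + m ^ 2)⁻¹) / 2)
          * ENNReal.ofReal (hI T (X 1) * hI T (X 2)) := rfl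
    rw [e, ← ENNReal.ofReal_mul (by positivity)]
    refine ENNReal.ofReal_le_ofReal ?_
    rw [hI, Set.indicator_of_mem (hc 1), Set.indicator_of_mem (hc 2)]
    exact pt_bound hm X
  refine h1.trans (le_of_eq ?_)
  rw [hmp.lintegral_comp hg, Measure.volume_eq_prod, lintegral_prod_symm' _ hg]
  have h2 : ∀ z : Fin 2 → ℝ, ∫⁻ t : ℝ, g (t, z)
      = ENNReal.ofReal (π / m) * ENNReal.ofReal (hI T (z 0) * hI T (z 1)) := by
    intro z
    simp only [g]
    rw [lintegral_mul_const' _ _ ENNReal.ofReal_ne_top, lintegral_kern hm0]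
  simp_rw [h2]
  rw [lintegral_const_mul' _ _ ENNReal.ofReal_ne_top, lintegral_hI hT,
    ← ENNReal.ofReal_mul (by positivity)]

theorem arsinh_le {N : ℝ} (hN : 1 ≤ N) : arsinh (2 * N ^ 64) ≤ 64 * N := by
  have hR : 1 ≤ N ^ 64 := one_le_pow₀ hN
  have h1 : √(1 + (2 * N ^ 64) ^ 2) ≤ 3 * N ^ 64 := by
    rw [Real.sqrt_le_left (by positivity)]
    nlinarith
  have h2 : arsinh (2 * N ^ 64) ≤ Real.log (5 * N ^ 64) := by
    unfold arsinh
    exact Real.log_le_log (by positivity) (by linarith)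
  rw [Real.log_mul (by norm_num) (by positivity), Real.log_pow] at h2
  have h3 := Real.log_le_sub_one_of_pos (show (0 : ℝ) < 5 by norm_num)
  have h4 := Real.log_le_sub_one_of_pos (show 0 < N by linarith)
  push_cast at h2
  linarith

end Pool.Agent.MP_515557_an.H65
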