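import Pool.Agent.MP_515557_an.H65.Alg
import Pool.Agent.MP_515557_an.H65.Integ

set_option autoImplicit false

namespace Pool.Agent.MP_515557_an.H65

open Complex ComplexConjugate
open scoped ContDiff

/-- The simple wave. -/
noncomputable def uc (m : ℝ) (X : Pt) : ℂ := sg m X + conj (sg m X) * conj (sg m X) / 2

theorem contDiff_conj_sg {m : ℝ} (hm : 0 < m) : ContDiff ℝ ∞ (fun X => conj (sg m X)) :=
  Complex.conjCLE.contDiff.comp (contDiff_sg hm)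

theorem contDiff_uc {m : ℝ} (hm : 0 < m) : ContDiff ℝ ∞ (uc m) :=
  (contDiff_sg hm).add (((contDiff_conj_sg hm).mul (contDiff_conj_sg hm)).div_const 2)

theorem fderiv_uc {m : ℝ} (hm : 0 < m) (X h : Pt) :
    fderiv ℝ (uc m) X h = dl (sg m X) (fderiv ℝ (sg m) X h) := by
  have hσ : HasFDerivAt (sg m) (fderiv ℝ (sg m) X) X :=
    ((contDiff_sg hm).differentiable (by simp) X).hasFDerivAt
  have hc : HasFDerivAt (fun X => conj (sg m X))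
      ((Complex.conjCLE : ℂ →L[ℝ] ℂ).comp (fderiv ℝ (sg m) X)) X :=
    (Complex.conjCLE : ℂ →L[ℝ] ℂ).hasFDerivAt.comp X hσ
  have h1 := hσ.fun_add ((hc.fun_mul hc).mul_const (2 : ℂ)⁻¹)
  have e : uc m = fun y => sg m y + conj (sg m y) * conj (sg m y) * (2 : ℂ)⁻¹ := by
    funext y; rw [uc, div_eq_mul_inv]
  rw [e, h1.fderiv]
  simp [dl]
  ring

theorem norm_uc_sub {M : ℝ} (hM : 1 ≤ M) (X : Pt) :
    ‖uc 1 X - uc M X‖ ≤ 4 * M * ‖ss 1 X‖⁻¹ := by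
  have h1 := norm_sg_sub hM X
  have h2 := norm_sg_le_one one_pos X
  have h3 := norm_sg_le_one (show 0 < M by linarith) X
  have e : uc 1 X - uc M X = (sg 1 X - sg M X)
      + conj (sg 1 X - sg M X) * conj (sg 1 X + sg M X) / 2 := by
    simp only [uc, map_sub, map_add]; ring
  rw [e]
  refine (norm_add_le _ _).trans ?_
  rw [norm_div, norm_mul, Complex.norm_conj, Complex.norm_conj]
  have h4 : ‖sg 1 X + sg M X‖ ≤ 2 := (norm_add_le _ _).trans (by linarith)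
  simp only [Complex.norm_ofNat]
  nlinarith [norm_nonneg (sg 1 X - sg M X)]

/-- The gradient matrix of the simple wave. -/
noncomputable def GG (m : ℝ) (X : Pt) : Mat := Gm (sg m X) (-(2 * ss m X)⁻¹)

theorem norm_w (m : ℝ) (X : Pt) : ‖-(2 * ss m X)⁻¹‖ = ‖ss m X‖⁻¹ / 2 := by
  rw [norm_neg, norm_inv, norm_mul]
  simp only [Complex.norm_ofNat]
  rw [mul_inv]; ring

theorem GG_bound {m : ℝ} (hm : 0 < m) (X : Pt) (i : Fin 2) (j : Fin 3) :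
    |GG m X i j| ≤ 2 * ‖ss m X‖⁻¹ := by
  refine (Gm_bound _ _ (norm_sg_le_one hm X) i j).trans (le_of_eq ?_)
  rw [norm_w]; ring

theorem GG_eq {m : ℝ} (hm : 0 < m) (X : Pt) :
    GG m X = cm (fderiv ℝ (uc m) X (Pi.single 0 1)) (fderiv ℝ (uc m) X (Pi.single 1 1))
      (fderiv ℝ (uc m) X (Pi.single 2 1)) := by
  rw [fderiv_uc hm, fderiv_uc hm, fderiv_uc hm, fderiv_sg hm, fderiv_sg hm, fderiv_sg hm, GG, Gm]
  congr 2
  · simp [zt, zb]; ring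
  · simp [zt, zb]; ring
  · simp [zt, zb]; ring

theorem PP_GG_nonpos (m : ℝ) (X : Pt) : PP (GG m X) ≤ 0 := by
  rw [GG, PP_Gm]
  have : 0 ≤ (1 - ‖sg m X‖ ^ 2) ^ 6 * ‖-(2 * ss m X)⁻¹‖ ^ 4 := by positivity
  linarith

theorem PP_GG_small (X : Pt) (hX : X ∈ Metric.ball (0 : Pt) (1 / 2)) :
    PP (GG 1 X) ≤ -(1 / 9216) := by
  have hc : ∀ i, |X i| ≤ 1 / 2 := fun i =>
    (lt_of_le_of_lt (norm_le_pi_norm X i) (mem_ball_zero_iff.mp hX)).le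
  have hsq : ∀ i, X i ^ 2 ≤ 1 / 4 := fun i => by
    have := pow_le_pow_left₀ (abs_nonneg _) (hc i) 2
    rw [sq_abs] at this
    linarith
  have hr0 := rr_nonneg X
  have hr2 : rr X ^ 2 ≤ 1 / 2 := by rw [rr_sq]; linarith [hsq 1, hsq 2]
  have hr : rr X ≤ 3 / 4 := by nlinarith
  have h1 : ‖sg 1 X‖ ^ 2 ≤ 1 / 2 := by
    have := pow_le_pow_left₀ (norm_nonneg _) (norm_sg_le_half X) 2
    nlinarith
  have h2 : (1 / 2 : ℝ) ^ 6 ≤ (1 - ‖sg 1 X‖ ^ 2) ^ 6 :=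
    pow_le_pow_left₀ (by norm_num) (by linarith) 6
  have h3 : ‖ss 1 X‖ ^ 4 ≤ 9 := by
    rw [norm_ss_pow]
    have h0 := abs_le.mp (hc 0)
    have a1 : (X 0 - rr X) ^ 2 + 1 ^ 2 ≤ 3 := by nlinarith [hsq 0]
    have a2 : (X 0 + rr X) ^ 2 + 1 ^ 2 ≤ 3 := by nlinarith [hsq 0]
    calc _ ≤ (3 : ℝ) * 3 := mul_le_mul a1 a2 (by positivity) (by norm_num)
      _ = 9 := by norm_num
  have hs : 0 < ‖ss 1 X‖ := norm_pos_iff.mpr (ss_ne one_pos X)
  have h4 : (9 : ℝ)⁻¹ ≤ (‖ss 1 X‖ ^ 4)⁻¹ := inv_anti₀ (by positivity) h3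
  rw [GG, PP_Gm, norm_w, div_pow, inv_pow]
  have h5 : (1 / 2 : ℝ) ^ 6 * ((9 : ℝ)⁻¹ / 2 ^ 4)
      ≤ (1 - ‖sg 1 X‖ ^ 2) ^ 6 * ((‖ss 1 X‖ ^ 4)⁻¹ / 2 ^ 4) :=
    mul_le_mul h2 (by linarith) (by norm_num) (by positivity)
  linarith

/-- A fixed bump. -/
noncomputable def bump : ContDiffBump (0 : Pt) := ⟨1, 2, one_pos, one_lt_two⟩

/-- The cutoff at scale R. -/
noncomputable def chi (R : ℝ) (X : Pt) : ℝ := bump (R⁻¹ • X)

theorem contDiff_chi (R : ℝ) : ContDiff ℝ ∞ (chi R) :=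
  bump.contDiff.comp (contDiff_const_smul R⁻¹)

theorem exists_bump_bound : ∃ C : ℝ, 0 ≤ C ∧ ∀ X : Pt, ‖fderiv ℝ bump X‖ ≤ C := by
  have h1 : Continuous (fderiv ℝ bump) :=
    (bump.contDiff (n := 1)).continuous_fderiv (by simp)
  obtain ⟨C, hC⟩ := h1.bounded_above_of_compact_support (bump.hasCompactSupport.fderiv ℝ)
  exact ⟨C, (norm_nonneg _).trans (hC 0), hC⟩

theorem fderiv_chi_le {C R : ℝ} (hC : ∀ X : Pt, ‖fderiv ℝ bump X‖ ≤ C) (hR : 0 < R) (X : Pt)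
    (j : Fin 3) : |fderiv ℝ (chi R) X (Pi.single j 1)| ≤ C * R⁻¹ := by
  have h1 : HasFDerivAt bump (fderiv ℝ bump (R⁻¹ • X)) (R⁻¹ • X) :=
    ((bump.contDiff (n := 1)).differentiable (by simp) _).hasFDerivAt
  have h2 : HasFDerivAt (fun Y : Pt => R⁻¹ • Y) (R⁻¹ • ContinuousLinearMap.id ℝ Pt) X :=
    (hasFDerivAt_id X).const_smul R⁻¹
  have h3 : HasFDerivAt (chi R) _ X := h1.comp X h2
  rw [h3.fderiv]
  have h4 : ‖(R⁻¹ • (Pi.single j 1 : Pt))‖ = R⁻¹ := by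
    rw [norm_smul, Pi.norm_single, Real.norm_eq_abs, abs_of_pos (inv_pos.mpr hR)]; simp
  calc _ = ‖fderiv ℝ bump (R⁻¹ • X) (R⁻¹ • (Pi.single j 1 : Pt))‖ := rfl
    _ ≤ ‖fderiv ℝ bump (R⁻¹ • X)‖ * ‖(R⁻¹ • (Pi.single j 1 : Pt))‖ :=
        ContinuousLinearMap.le_opNorm _ _
    _ ≤ C * R⁻¹ := by
        rw [h4]; exact mul_le_mul_of_nonneg_right (hC _) (inv_pos.mpr hR).le

theorem chi_eq_one {R : ℝ} (hR : 1 ≤ R) (X : Pt) (hX : X ∈ Metric.ball (0 : Pt) (1 / 2)) :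
    chi R X = 1 := by
  refine bump.one_of_mem_closedBall ?_
  rw [mem_closedBall_zero_iff, norm_smul, Real.norm_eq_abs, abs_of_pos (by positivity)]
  have h1 := mem_ball_zero_iff.mp hX
  have h2 : R⁻¹ ≤ 1 := inv_le_one_of_one_le₀ hR
  have h3 : bump.rIn = 1 := rfl
  rw [h3]
  nlinarith [norm_nonneg X]

theorem chi_eq_zero {R : ℝ} (hR : 0 < R) (X : Pt) (hX : X ∉ Metric.ball (0 : Pt) (2 * R)) :
    chi R X = 0 := by
  refine bump.zero_of_le_dist ?_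
  rw [mem_ball_zero_iff, not_lt] at hX
  rw [dist_zero_right, norm_smul, Real.norm_eq_abs, abs_of_pos (by positivity)]
  have h3 : bump.rOut = 2 := rfl
  rw [h3, le_inv_mul_iff₀ hR]
  linarith

/-- Identification of the complex plane with the real plane. -/
noncomputable def toR2 : ℂ →L[ℝ] (Fin 2 → ℝ) :=
  ContinuousLinearMap.pi ![Complex.reCLM, Complex.imCLM]

/-- The complex test map. -/
noncomputable def gc (M R : ℝ) (X : Pt) : ℂ := (chi R X : ℂ) * (uc 1 X - uc M X)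

/-- The test map. -/
noncomputable def th (M R : ℝ) (X : Pt) : Fin 2 → ℝ := toR2 (gc M R X)

theorem contDiff_gc {M : ℝ} (hM : 0 < M) (R : ℝ) : ContDiff ℝ ∞ (gc M R) :=
  (Complex.ofRealCLM.contDiff.comp (contDiff_chi R)).mul
    ((contDiff_uc one_pos).sub (contDiff_uc hM))

theorem contDiff_th {M : ℝ} (hM : 0 < M) (R : ℝ) : ContDiff ℝ ∞ (th M R) :=
  toR2.contDiff.comp (contDiff_gc hM R)

theorem th_eq_zero (M : ℝ) {R : ℝ} (hR : 0 < R) (X : Pt)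
    (hX : X ∉ Metric.ball (0 : Pt) (2 * R)) : th M R X = 0 := by
  simp [th, gc, chi_eq_zero hR X hX]

theorem fderiv_gc {M : ℝ} (hM : 0 < M) (R : ℝ) (X h : Pt) :
    fderiv ℝ (gc M R) X h = (chi R X : ℂ) * (fderiv ℝ (uc 1) X h - fderiv ℝ (uc M) X h)
      + (fderiv ℝ (chi R) X h : ℝ) * (uc 1 X - uc M X) := by
  have h1 : HasFDerivAt (chi R) (fderiv ℝ (chi R) X) X :=
    ((contDiff_chi R).differentiable (by simp) X).hasFDerivAt
  have h2 : HasFDerivAt (fun Y => ((chi R Y : ℝ) : ℂ))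
      (Complex.ofRealCLM.comp (fderiv ℝ (chi R) X)) X :=
    Complex.ofRealCLM.hasFDerivAt.comp X h1
  have h3 : HasFDerivAt (uc 1) (fderiv ℝ (uc 1) X) X :=
    ((contDiff_uc one_pos).differentiable (by simp) X).hasFDerivAt
  have h4 : HasFDerivAt (uc M) (fderiv ℝ (uc M) X) X :=
    ((contDiff_uc hM).differentiable (by simp) X).hasFDerivAt
  have h5 : HasFDerivAt (gc M R) _ X := h2.fun_mul (h3.fun_sub h4)
  rw [h5.fderiv]
  simp
  ring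

/-- The cutoff error matrix. -/
noncomputable def TT (M R : ℝ) (X : Pt) : Mat :=
  cm ((fderiv ℝ (chi R) X (Pi.single 0 1) : ℝ) * (uc 1 X - uc M X))
    ((fderiv ℝ (chi R) X (Pi.single 1 1) : ℝ) * (uc 1 X - uc M X))
    ((fderiv ℝ (chi R) X (Pi.single 2 1) : ℝ) * (uc 1 X - uc M X))

theorem TT_bound {C M R : ℝ} (hC0 : 0 ≤ C) (hC : ∀ X : Pt, ‖fderiv ℝ bump X‖ ≤ C) (hM : 1 ≤ M)
    (hR : 0 < R) (X : Pt) (i : Fin 2) (j : Fin 3) :
    |TT M R X i j| ≤ (C * R⁻¹ * (4 * M)) * ‖ss 1 X‖⁻¹ := by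
  have h : ∀ j : Fin 3, ‖((fderiv ℝ (chi R) X (Pi.single j 1) : ℝ) : ℂ) * (uc 1 X - uc M X)‖
      ≤ (C * R⁻¹ * (4 * M)) * ‖ss 1 X‖⁻¹ := fun j => by
    rw [norm_mul, Complex.norm_real, Real.norm_eq_abs, mul_assoc (C * R⁻¹)]
    exact mul_le_mul (fderiv_chi_le hC hR X j) (norm_uc_sub hM X) (norm_nonneg _) (by positivity)
  exact cm_bound _ _ _ _ (h 0) (h 1) (h 2) i j

/-- The gradient matrix of a map. -/
noncomputable def grad (ϑ : Pt → (Fin 2 → ℝ)) (X : Pt) : Mat :=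
  LinearMap.toMatrix' ((fderiv ℝ ϑ X : Pt →L[ℝ] (Fin 2 → ℝ)) : Pt →ₗ[ℝ] (Fin 2 → ℝ))

theorem grad_apply (ϑ : Pt → (Fin 2 → ℝ)) (X : Pt) (i : Fin 2) (j : Fin 3) :
    grad ϑ X i j = fderiv ℝ ϑ X (Pi.single j 1) i := by
  simp [grad, LinearMap.toMatrix'_apply]

theorem grad_th {M : ℝ} (hM : 0 < M) (R : ℝ) (X : Pt) :
    grad (th M R) X = chi R X • GG 1 X - chi R X • GG M X + TT M R X := by
  have h1 : HasFDerivAt (th M R) (toR2.comp (fderiv ℝ (gc M R) X)) X :=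
    toR2.hasFDerivAt.comp X ((contDiff_gc hM R).differentiable (by simp) X).hasFDerivAt
  rw [GG_eq one_pos, GG_eq hM]
  ext i j
  rw [grad_apply, h1.fderiv, ContinuousLinearMap.comp_apply, fderiv_gc hM]
  fin_cases i <;> fin_cases j <;> simp [toR2, cm, TT] <;> ring

theorem continuous_grad {ϑ : Pt → (Fin 2 → ℝ)} (h : ContDiff ℝ ∞ ϑ) : Continuous (grad ϑ) := by
  refine continuous_matrix fun i j => ?_
  simp_rw [grad_apply]
  have h1 : Continuous (fderiv ℝ ϑ) := h.continuous_fderiv (by simp)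
  fun_prop

end Pool.Agent.MP_515557_an.H65
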