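import Pool.Agent.MP_515557_an.H65.Field

set_option autoImplicit false

namespace Pool.Agent.MP_515557_an.H65

open MeasureTheory Real
open scoped ContDiff

theorem integrableOn_ball {f : Pt → ℝ} (hf : Continuous f) (T : ℝ) :
    IntegrableOn f (Metric.ball (0 : Pt) T) :=
  (hf.continuousOn.integrableOn_compact (isCompact_closedBall (0 : Pt) T)).mono_set
    Metric.ball_subset_closedBall

theorem vol_ball {T : ℝ} (hT : 0 < T) :
    (volume : Measure Pt).real (Metric.ball (0 : Pt) T) = (2 * T) ^ 3 := by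
  rw [Measure.real, Real.volume_pi_ball _ hT, ENNReal.toReal_ofReal (by positivity)]
  simp

theorem integral_bound {C M R κ η l : ℝ} (hC0 : 0 ≤ C) (hC : ∀ X : Pt, ‖fderiv ℝ bump X‖ ≤ C)
    (hM : 1 ≤ M) (hR : 1 ≤ R) (hκ : C * R⁻¹ * (4 * M) ≤ κ) (hκ1 : κ ≤ 1) (hη : 0 < η)
    (hl : 0 < l) :
    ∫ X in Metric.ball (0 : Pt) (2 * R), WW η (grad (th M R) X)
      ≤ -(1 / 9216)
        + (12000 * η + 6000 * κ + 3375000 * η + 18 * η⁻¹ * κ ^ 2 * l)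
          * (π / 1 * (2 * arsinh (2 * R)) ^ 2)
        + 12000 * (η ^ 3)⁻¹ * (π / M * (2 * arsinh (2 * R)) ^ 2)
        + 18 * η⁻¹ * κ ^ 2 * l⁻¹ * (2 * (2 * R)) ^ 3 := by
  have hM0 : 0 < M := by linarith
  have hR0 : 0 < R := by linarith
  have hκ0 : 0 ≤ κ := le_trans (by positivity) hκ
  set cb := 12000 * η + 6000 * κ + 3375000 * η + 18 * η⁻¹ * κ ^ 2 * l with hcb
  set cβ := 12000 * (η ^ 3)⁻¹ with hcβ
  set c0 := 18 * η⁻¹ * κ ^ 2 * l⁻¹ with hc0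
  have hcb0 : 0 ≤ cb := by positivity
  have hcβ0 : 0 ≤ cβ := by positivity
  set S := Metric.ball (0 : Pt) (1 / 2) with hS
  set B := Metric.ball (0 : Pt) (2 * R) with hB
  have hSB : S ⊆ B := Metric.ball_subset_ball (by linarith)
  have hpt : ∀ X : Pt, WW η (grad (th M R) X)
      ≤ S.indicator (fun _ => -(1 / 9216 : ℝ)) X + cb * ‖ss 1 X‖⁻¹ ^ 4
        + cβ * ‖ss M X‖⁻¹ ^ 4 + c0 := by
    intro X
    have hs1 : 1 ≤ ‖ss 1 X‖ := le_norm_ss one_pos X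
    have hb := pointwise_bound (GG 1 X) (GG M X) (TT M R X) (chi R X) ‖ss 1 X‖⁻¹ ‖ss M X‖⁻¹ κ η l
      bump.nonneg bump.le_one (by positivity)
      (inv_anti₀ (by linarith) (norm_ss_mono hM X)) (inv_le_one_of_one_le₀ hs1) hκ1 hη hl
      (GG_bound one_pos X) (GG_bound hM0 X)
      (fun i j => (TT_bound hC0 hC hM hR0 X i j).trans
        (mul_le_mul_of_nonneg_right hκ (by positivity)))
      (Gm_d1 _ _) (Gm_d2 _ _) (Gm_d1 _ _) (Gm_d2 _ _)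
    rw [grad_th hM0]
    refine hb.trans ?_
    have : chi R X ^ 4 * PP (GG 1 X) ≤ S.indicator (fun _ => -(1 / 9216 : ℝ)) X := by
      by_cases hX : X ∈ S
      · rw [Set.indicator_of_mem hX, chi_eq_one hR X hX]
        simpa using PP_GG_small X hX
      · rw [Set.indicator_of_notMem hX]
        exact mul_nonpos_of_nonneg_of_nonpos (by positivity) (PP_GG_nonpos 1 X)
    linarith
  have i0 : IntegrableOn (fun X => WW η (grad (th M R) X)) B :=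
    integrableOn_ball ((continuous_WW η).comp (continuous_grad (contDiff_th hM0 R))) _
  have i1 : IntegrableOn (S.indicator (fun _ => -(1 / 9216 : ℝ))) B :=
    (integrableOn_ball continuous_const _).indicator Metric.isOpen_ball.measurableSet
  have i2 : IntegrableOn (fun X => cb * ‖ss 1 X‖⁻¹ ^ 4) B :=
    integrableOn_ball (continuous_const.mul (continuous_inv_ss4 one_pos)) _
  have i3 : IntegrableOn (fun X => cβ * ‖ss M X‖⁻¹ ^ 4) B :=
    integrableOn_ball (continuous_const.mul (continuous_inv_ss4 hM0)) _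
  have i4 : IntegrableOn (fun _ : Pt => c0) B := integrableOn_ball continuous_const _
  have i12 : IntegrableOn
      (fun X => S.indicator (fun _ => -(1 / 9216 : ℝ)) X + cb * ‖ss 1 X‖⁻¹ ^ 4) B := i1.add i2
  have i123 : IntegrableOn
      (fun X => S.indicator (fun _ => -(1 / 9216 : ℝ)) X + cb * ‖ss 1 X‖⁻¹ ^ 4
        + cβ * ‖ss M X‖⁻¹ ^ 4) B := i12.add i3
  have i5 : IntegrableOn
      (fun X => S.indicator (fun _ => -(1 / 9216 : ℝ)) X + cb * ‖ss 1 X‖⁻¹ ^ 4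
        + cβ * ‖ss M X‖⁻¹ ^ 4 + c0) B := i123.add i4
  refine (integral_mono i0 i5 hpt).trans ?_
  rw [integral_add i123 i4, integral_add i12 i3, integral_add i1 i2, integral_const_mul,
    integral_const_mul, setIntegral_const, setIntegral_indicator Metric.isOpen_ball.measurableSet,
    Set.inter_eq_right.mpr hSB, setIntegral_const, vol_ball (by norm_num), vol_ball (by positivity)]
  have j1 := mul_le_mul_of_nonneg_left
    (integral_ss_le (le_refl (1 : ℝ)) (show 0 ≤ 2 * R by positivity)) hcb0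
  have j2 := mul_le_mul_of_nonneg_left (integral_ss_le hM (show 0 ≤ 2 * R by positivity)) hcβ0
  simp only [smul_eq_mul]
  nlinarith

theorem numeric {N L : ℝ} (hN : 10 ^ 16 ≤ N) (hL0 : 0 ≤ L) (hL : L ≤ 64 * N) :
    -(1 / 9216)
        + (12000 * (N ^ 3)⁻¹ + 6000 * (N ^ 51)⁻¹ + 3375000 * (N ^ 3)⁻¹
            + 18 * (N ^ 3)⁻¹⁻¹ * (N ^ 51)⁻¹ ^ 2 * N ^ 96)
          * (π / 1 * (2 * L) ^ 2)
        + 12000 * ((N ^ 3)⁻¹ ^ 3)⁻¹ * (π / N ^ 12 * (2 * L) ^ 2)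
        + 18 * (N ^ 3)⁻¹⁻¹ * (N ^ 51)⁻¹ ^ 2 * (N ^ 96)⁻¹ * (2 * (2 * N ^ 64)) ^ 3 < 0 := by
  have hN1 : 1 ≤ N := le_trans (by norm_num) hN
  have hN0 : 0 < N := by linarith
  have e1 : 18 * (N ^ 3)⁻¹⁻¹ * (N ^ 51)⁻¹ ^ 2 * N ^ 96 = 18 * (N ^ 3)⁻¹ := by field_simp
  have e2 : 12000 * ((N ^ 3)⁻¹ ^ 3)⁻¹ * (π / N ^ 12 * (2 * L) ^ 2)
      = 12000 * (N ^ 3)⁻¹ * (π / 1 * (2 * L) ^ 2) := by field_simp
  have e3 : 18 * (N ^ 3)⁻¹⁻¹ * (N ^ 51)⁻¹ ^ 2 * (N ^ 96)⁻¹ * (2 * (2 * N ^ 64)) ^ 3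
      = 1152 * (N ^ 3)⁻¹ := by field_simp; norm_num
  have h1 : (N ^ 51)⁻¹ ≤ (N ^ 3)⁻¹ :=
    inv_anti₀ (by positivity) (pow_le_pow_right₀ hN1 (by norm_num))
  have h2 : π / 1 * (2 * L) ^ 2 ≤ 65536 * N ^ 2 := by
    have a1 : (2 * L) ^ 2 ≤ (128 * N) ^ 2 := pow_le_pow_left₀ (by positivity) (by linarith) 2
    have a2 : π / 1 ≤ 4 := by rw [div_one]; exact Real.pi_le_four
    calc _ ≤ 4 * (128 * N) ^ 2 := mul_le_mul a2 a1 (by positivity) (by norm_num)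
      _ = _ := by ring
  have h3 : (N ^ 3)⁻¹ * N ^ 2 = N⁻¹ := by field_simp
  have h4 : N⁻¹ ≤ (10 ^ 16)⁻¹ := inv_anti₀ (by norm_num) hN
  have h5 : (N ^ 3)⁻¹ ≤ N⁻¹ := inv_anti₀ hN0 (le_self_pow₀ hN1 (by norm_num))
  rw [e1, e2, e3]
  have hI0 : 0 ≤ π / 1 * (2 * L) ^ 2 := by positivity
  generalize π / 1 * (2 * L) ^ 2 = I at h2 hI0
  have h6 : (N ^ 3)⁻¹ * I ≤ 65536 * N⁻¹ := by
    rw [← h3]
    have := mul_le_mul_of_nonneg_left h2 (show 0 ≤ (N ^ 3)⁻¹ by positivity)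
    linarith
  have h7 : (N ^ 51)⁻¹ * I ≤ (N ^ 3)⁻¹ * I := mul_le_mul_of_nonneg_right h1 hI0
  nlinarith

theorem exists_negative : ∃ η M R : ℝ, 0 < η ∧ 0 < M ∧ 0 < R ∧
    ∫ X in Metric.ball (0 : Pt) (2 * R), WW η (grad (th M R) X) < 0 := by
  obtain ⟨C, hC0, hC⟩ := exists_bump_bound
  set N : ℝ := 10 ^ 16 + 4 * C with hN
  have hN16 : 10 ^ 16 ≤ N := by linarith
  have hN1 : 1 ≤ N := le_trans (by norm_num) hN16
  have hN0 : 0 < N := by linarith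
  refine ⟨(N ^ 3)⁻¹, N ^ 12, N ^ 64, by positivity, by positivity, by positivity, ?_⟩
  have hκ : C * (N ^ 64)⁻¹ * (4 * N ^ 12) ≤ (N ^ 51)⁻¹ := by
    have e : (N ^ 51)⁻¹ = N * ((N ^ 64)⁻¹ * N ^ 12) := by field_simp
    have h4 : 4 * C ≤ N := by
      have : (0 : ℝ) ≤ 10 ^ 16 := by norm_num
      linarith
    rw [e]
    calc C * (N ^ 64)⁻¹ * (4 * N ^ 12) = 4 * C * ((N ^ 64)⁻¹ * N ^ 12) := by ring
      _ ≤ _ := mul_le_mul_of_nonneg_right h4 (by positivity)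
  refine lt_of_le_of_lt (integral_bound (l := N ^ 96) hC0 hC (one_le_pow₀ hN1) (one_le_pow₀ hN1) hκ
    (inv_le_one_of_one_le₀ (one_le_pow₀ hN1)) (by positivity) (by positivity)) ?_
  exact numeric hN16 (arsinh_nonneg_iff.mpr (by positivity)) (arsinh_le hN1)

end Pool.Agent.MP_515557_an.H65
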