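import Mathlib

set_option autoImplicit false

namespace Pool.Agent.MP_515557_an.H65

/-- Real 2 by 3 matrices. -/
abbrev Mat := Matrix (Fin 2) (Fin 3) ℝ

/-- Lorentz form of the three minors. -/
def PP (F : Mat) : ℝ :=
  (F 0 0 * F 1 1 - F 0 1 * F 1 0) ^ 2 + (F 0 0 * F 1 2 - F 0 2 * F 1 0) ^ 2
    - (F 0 1 * F 1 2 - F 0 2 * F 1 1) ^ 2

/-- Squared Euclidean norm. -/
def NN (F : Mat) : ℝ :=
  F 0 0 ^ 2 + F 0 1 ^ 2 + F 0 2 ^ 2 + F 1 0 ^ 2 + F 1 1 ^ 2 + F 1 2 ^ 2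

/-- Squared distance type quantity to the four dimensional subspace. -/
def DD (F : Mat) : ℝ :=
  (F 0 1 + F 1 2 - F 0 0) ^ 2 + (F 1 1 - F 0 2 + F 1 0) ^ 2

/-- The integrand. -/
noncomputable def WW (ε : ℝ) (F : Mat) : ℝ := PP F + ε * NN F ^ 3 + ε⁻¹ * DD F

theorem WW_zero (ε : ℝ) : WW ε 0 = 0 := by simp [WW, PP, NN, DD]

theorem continuous_WW (ε : ℝ) : Continuous (WW ε) := by
  unfold WW PP NN DD
  fun_prop

theorem exists_of_rank_one (H : Mat) (h : H.rank = 1) :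
    ∃ (a : Fin 2 → ℝ) (η : Fin 3 → ℝ), ∀ i j, H i j = a i * η j := by
  rw [Matrix.rank, finrank_eq_one_iff'] at h
  obtain ⟨v, -, hv⟩ := h
  have key : ∀ j : Fin 3, ∃ c : ℝ, ∀ i, H i j = (v : Fin 2 → ℝ) i * c := by
    intro j
    obtain ⟨c, hc⟩ := hv ⟨H.mulVecLin (Pi.single j 1), LinearMap.mem_range_self _ _⟩
    refine ⟨c, fun i => ?_⟩
    have := congrArg (fun w : LinearMap.range H.mulVecLin => (w : Fin 2 → ℝ) i) hc
    simp at this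
    rw [← this]; ring
  choose η hη using key
  exact ⟨v, η, fun i j => hη j i⟩

theorem convex_aux (α β γ ε n0 n1 n2 : ℝ) (hε : 0 ≤ ε)
    (hq : ∀ t : ℝ, 0 ≤ n0 + 2 * n1 * t + n2 * t ^ 2)
    (hγ : ∀ t : ℝ, 0 ≤ γ + 3 * ε * (n0 + 2 * n1 * t + n2 * t ^ 2) ^ 2 * n2) :
    ConvexOn ℝ Set.univ
      (fun t : ℝ => α + β * t + γ * t ^ 2 + ε * (n0 + 2 * n1 * t + n2 * t ^ 2) ^ 3) := by
  have h1 : ∀ t : ℝ, HasDerivAt
      (fun t : ℝ => α + β * t + γ * t ^ 2 + ε * (n0 + 2 * n1 * t + n2 * t ^ 2) ^ 3)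
      (β + 2 * γ * t + ε * (3 * (n0 + 2 * n1 * t + n2 * t ^ 2) ^ 2 * (2 * n1 + 2 * n2 * t))) t := by
    intro t
    have hx := hasDerivAt_id' t
    have hq' : HasDerivAt (fun t : ℝ => n0 + 2 * n1 * t + n2 * t ^ 2) (2 * n1 + 2 * n2 * t) t := by
      have := ((hx.const_mul (2 * n1)).const_add n0).fun_add ((hx.fun_pow 2).const_mul n2)
      exact this.congr_deriv (by simp; ring)
    have := (((hx.const_mul β).const_add α).fun_add ((hx.fun_pow 2).const_mul γ)).fun_add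
      ((hq'.fun_pow 3).const_mul ε)
    exact this.congr_deriv (by simp; ring)
  have h2 : ∀ t : ℝ, HasDerivAt
      (fun t : ℝ => β + 2 * γ * t
        + ε * (3 * (n0 + 2 * n1 * t + n2 * t ^ 2) ^ 2 * (2 * n1 + 2 * n2 * t)))
      (2 * (γ + 3 * ε * (n0 + 2 * n1 * t + n2 * t ^ 2) ^ 2 * n2)
        + 6 * ε * (n0 + 2 * n1 * t + n2 * t ^ 2) * (2 * n1 + 2 * n2 * t) ^ 2) t := by
    intro t
    have hx := hasDerivAt_id' t
    have hq' : HasDerivAt (fun t : ℝ => n0 + 2 * n1 * t + n2 * t ^ 2) (2 * n1 + 2 * n2 * t) t := by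
      have := ((hx.const_mul (2 * n1)).const_add n0).fun_add ((hx.fun_pow 2).const_mul n2)
      exact this.congr_deriv (by simp; ring)
    have hl : HasDerivAt (fun t : ℝ => 2 * n1 + 2 * n2 * t) (2 * n2) t := by
      have := (hx.const_mul (2 * n2)).const_add (2 * n1)
      exact this.congr_deriv (by simp)
    have := ((hx.const_mul (2 * γ)).const_add β).fun_add
      ((((hq'.fun_pow 2).const_mul 3).fun_mul hl).const_mul ε)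
    exact this.congr_deriv (by simp; ring)
  refine convexOn_of_hasDerivWithinAt2_nonneg convex_univ
    (fun t _ => (h1 t).continuousAt.continuousWithinAt)
    (fun t _ => (h1 t).hasDerivWithinAt) (fun t _ => (h2 t).hasDerivWithinAt) ?_
  intro t _
  have := hq t
  have := hγ t
  positivity

theorem key_aux (ε A E Q Z D n B : ℝ) (hε : 0 < ε) (hA : 0 ≤ A) (hE : 0 ≤ E) (hD : 0 ≤ D)
    (hAQ : A * Q ^ 2 ≤ 2 * D * E) (hZ : |Z| ≤ A * n) :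
    0 ≤ (B ^ 2 - Q * Z + ε⁻¹ * D) + 3 * ε * n ^ 2 * (A * E) := by
  have hZ2 : Z ^ 2 ≤ (A * n) ^ 2 := by
    rw [← sq_abs Z]; exact pow_le_pow_left₀ (abs_nonneg Z) hZ 2
  have hx0 : 0 ≤ ε⁻¹ * D := by positivity
  have hy0 : 0 ≤ 3 * ε * n ^ 2 * (A * E) := by positivity
  have hxy : (ε⁻¹ * D) * (3 * ε * n ^ 2 * (A * E)) = 3 * (D * n ^ 2 * (A * E)) := by
    field_simp
  generalize ε⁻¹ * D = x at hx0 hxy ⊢
  generalize 3 * ε * n ^ 2 * (A * E) = y at hy0 hxy ⊢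
  have hQZ : (Q * Z) ^ 2 ≤ (x + y) ^ 2 := by
    have h1 : (Q * Z) ^ 2 ≤ Q ^ 2 * (A * n) ^ 2 := by
      rw [mul_pow]; exact mul_le_mul_of_nonneg_left hZ2 (sq_nonneg Q)
    have h2 : Q ^ 2 * (A * n) ^ 2 = (A * Q ^ 2) * (A * n ^ 2) := by ring
    have h3 : (A * Q ^ 2) * (A * n ^ 2) ≤ (2 * D * E) * (A * n ^ 2) :=
      mul_le_mul_of_nonneg_right hAQ (by positivity)
    have h4 : 0 ≤ D * n ^ 2 * (A * E) := by positivity
    have h5 : (2 * D * E) * (A * n ^ 2) = 2 * (D * n ^ 2 * (A * E)) := by ring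
    have h6 : (x + y) ^ 2 = (x - y) ^ 2 + 4 * (x * y) := by ring
    have h7 := sq_nonneg (x - y)
    linarith
  have h5 : Q * Z ≤ x + y := (abs_le_of_sq_le_sq' hQZ (by positivity)).2
  have := sq_nonneg B
  linarith

theorem key_ineq (ε a0 a1 e0 e1 e2 z0 z1 z2 n : ℝ) (hε : 0 < ε)
    (hz : z0 ^ 2 + z1 ^ 2 + z2 ^ 2 ≤ (a0 ^ 2 + a1 ^ 2) * n) :
    0 ≤ ((e0 * z1 - e1 * z0) ^ 2 + (e0 * z2 - e2 * z0) ^ 2 - (e1 * z2 - e2 * z1) ^ 2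
        + ε⁻¹ * ((a0 * e1 + a1 * e2 - a0 * e0) ^ 2 + (a1 * e1 - a0 * e2 + a1 * e0) ^ 2))
      + 3 * ε * n ^ 2 * ((a0 ^ 2 + a1 ^ 2) * (e0 ^ 2 + e1 ^ 2 + e2 ^ 2)) := by
  have hc : (e0 * z1 - e1 * z0) ^ 2 + (e0 * z2 - e2 * z0) ^ 2 - (e1 * z2 - e2 * z1) ^ 2
      = (e0 * z0 - e1 * z1 - e2 * z2) ^ 2
        - (e0 ^ 2 - e1 ^ 2 - e2 ^ 2) * (z0 ^ 2 - z1 ^ 2 - z2 ^ 2) := by
    ring
  rw [hc]
  refine key_aux ε _ _ _ _ _ n _ hε (by positivity) (by positivity) (by positivity) ?_ ?_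
  · have h1 : (a0 ^ 2 + a1 ^ 2) * (e0 ^ 2 - e1 ^ 2 - e2 ^ 2) ^ 2
        = ((a0 * e1 + a1 * e2 - a0 * e0) * e1 - (a1 * e1 - a0 * e2 + a1 * e0) * e2
            + e0 * (a0 * e1 + a1 * e2 - a0 * e0)) ^ 2
          + ((a0 * e1 + a1 * e2 - a0 * e0) * e2 + (a1 * e1 - a0 * e2 + a1 * e0) * e1
            - e0 * (a1 * e1 - a0 * e2 + a1 * e0)) ^ 2 := by
      ring
    rw [h1]
    generalize a0 * e1 + a1 * e2 - a0 * e0 = d1
    generalize a1 * e1 - a0 * e2 + a1 * e0 = d2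
    have h2 : 2 * (d1 ^ 2 + d2 ^ 2) * (e0 ^ 2 + e1 ^ 2 + e2 ^ 2)
        = ((d1 * e1 - d2 * e2 + e0 * d1) ^ 2 + (d1 * e2 + d2 * e1 - e0 * d2) ^ 2)
          + ((d1 * e1 - d2 * e2 - e0 * d1) ^ 2 + (d1 * e2 + d2 * e1 + e0 * d2) ^ 2) := by
      ring
    rw [h2]
    have : 0 ≤ (d1 * e1 - d2 * e2 - e0 * d1) ^ 2 + (d1 * e2 + d2 * e1 + e0 * d2) ^ 2 := by
      positivity
    linarith
  · have := sq_nonneg z0
    have := sq_nonneg z1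
    have := sq_nonneg z2
    rw [abs_le]; constructor <;> linarith

theorem cs_aux (a0 a1 p0 p1 p2 q0 q1 q2 : ℝ) :
    (a1 * p0 - a0 * q0) ^ 2 + (a1 * p1 - a0 * q1) ^ 2 + (a1 * p2 - a0 * q2) ^ 2
      ≤ (a0 ^ 2 + a1 ^ 2) * (p0 ^ 2 + p1 ^ 2 + p2 ^ 2 + q0 ^ 2 + q1 ^ 2 + q2 ^ 2) := by
  have h : (a0 ^ 2 + a1 ^ 2) * (p0 ^ 2 + p1 ^ 2 + p2 ^ 2 + q0 ^ 2 + q1 ^ 2 + q2 ^ 2)
      = (a1 * p0 - a0 * q0) ^ 2 + (a1 * p1 - a0 * q1) ^ 2 + (a1 * p2 - a0 * q2) ^ 2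
        + ((a0 * p0 + a1 * q0) ^ 2 + (a0 * p1 + a1 * q1) ^ 2 + (a0 * p2 + a1 * q2) ^ 2) := by
    ring
  rw [h]
  have : 0 ≤ (a0 * p0 + a1 * q0) ^ 2 + (a0 * p1 + a1 * q1) ^ 2 + (a0 * p2 + a1 * q2) ^ 2 := by
    positivity
  linarith

theorem WW_rankOneConvex (ε : ℝ) (hε : 0 < ε) (F H : Mat) (hH : H.rank = 1) (t : ℝ)
    (ht0 : 0 ≤ t) (ht1 : t ≤ 1) :
    WW ε ((1 - t) • F + t • (F + H)) ≤ (1 - t) * WW ε F + t * WW ε (F + H) := by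
  obtain ⟨a, η, h⟩ := exists_of_rank_one H hH
  set z0 := a 1 * F 0 0 - a 0 * F 1 0 with hz0
  set z1 := a 1 * F 0 1 - a 0 * F 1 1 with hz1
  set z2 := a 1 * F 0 2 - a 0 * F 1 2 with hz2
  set n0 := NN F with hn0
  set n1 := F 0 0 * (a 0 * η 0) + F 0 1 * (a 0 * η 1) + F 0 2 * (a 0 * η 2)
    + F 1 0 * (a 1 * η 0) + F 1 1 * (a 1 * η 1) + F 1 2 * (a 1 * η 2) with hn1
  set n2 := (a 0 ^ 2 + a 1 ^ 2) * (η 0 ^ 2 + η 1 ^ 2 + η 2 ^ 2) with hn2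
  set γ := (η 0 * z1 - η 1 * z0) ^ 2 + (η 0 * z2 - η 2 * z0) ^ 2 - (η 1 * z2 - η 2 * z1) ^ 2
        + ε⁻¹ * ((a 0 * η 1 + a 1 * η 2 - a 0 * η 0) ^ 2
          + (a 1 * η 1 - a 0 * η 2 + a 1 * η 0) ^ 2) with hγ
  set α := PP F + ε⁻¹ * DD F with hα
  set β := PP (F + H) + ε⁻¹ * DD (F + H) - α - γ with hβ
  have hN : ∀ s : ℝ, n0 + 2 * n1 * s + n2 * s ^ 2 = NN (F + s • H) := by
    intro s
    simp only [hn0, hn1, hn2, NN, Matrix.add_apply, Matrix.smul_apply, smul_eq_mul, h]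
    ring
  have hW : ∀ s : ℝ, WW ε (F + s • H)
      = α + β * s + γ * s ^ 2 + ε * (n0 + 2 * n1 * s + n2 * s ^ 2) ^ 3 := by
    intro s
    rw [hN s]
    simp only [WW, hα, hβ, hγ, hz0, hz1, hz2, PP, DD, Matrix.add_apply, Matrix.smul_apply,
      smul_eq_mul, h]
    ring
  have hconv := convex_aux α β γ ε n0 n1 n2 hε.le
    (fun s => by rw [hN s]; unfold NN; positivity)
    (fun s => by
      refine key_ineq ε (a 0) (a 1) (η 0) (η 1) (η 2) z0 z1 z2 _ hε ?_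
      rw [hN s]
      refine le_of_eq_of_le ?_ (cs_aux (a 0) (a 1) ((F + s • H) 0 0) ((F + s • H) 0 1)
        ((F + s • H) 0 2) ((F + s • H) 1 0) ((F + s • H) 1 1) ((F + s • H) 1 2))
      simp only [hz0, hz1, hz2, Matrix.add_apply, Matrix.smul_apply, smul_eq_mul, h]
      ring)
  have h1 := hconv.2 (Set.mem_univ (0 : ℝ)) (Set.mem_univ (1 : ℝ)) (sub_nonneg.mpr ht1) ht0
    (by ring)
  have e1 : (1 - t) • F + t • (F + H) = F + t • H := by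
    rw [smul_add, ← add_assoc, ← add_smul]; simp
  have e2 : WW ε F = WW ε (F + (0 : ℝ) • H) := by simp
  have e3 : WW ε (F + H) = WW ε (F + (1 : ℝ) • H) := by simp
  rw [e1, e2, e3, hW, hW, hW]
  simpa using h1

end Pool.Agent.MP_515557_an.H65
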