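import Mathlib

set_option autoImplicit false

namespace Pool.Agent.MP_515557_an.H65

open Complex ComplexConjugate
open scoped ContDiff

/-- Points of three dimensional space, coordinates (t, x, y). -/
abbrev Pt := Fin 3 → ℝ

/-- The complex space coordinate x + i y. -/
noncomputable def zt (X : Pt) : ℂ := (X 1 : ℂ) + (X 2 : ℂ) * I

/-- Its conjugate x - i y. -/
noncomputable def zb (X : Pt) : ℂ := (X 1 : ℂ) - (X 2 : ℂ) * I

/-- The complex time t + i m. -/
noncomputable def tau (m : ℝ) (X : Pt) : ℂ := (X 0 : ℂ) + (m : ℂ) * I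

/-- The discriminant. -/
noncomputable def Dl (m : ℝ) (X : Pt) : ℂ := zt X * zb X - tau m X ^ 2

/-- The complex distance. -/
noncomputable def ss (m : ℝ) (X : Pt) : ℂ := I * Complex.sqrt (Dl m X)

/-- The root in the unit disc. -/
noncomputable def sg (m : ℝ) (X : Pt) : ℂ := -zb X / (tau m X + ss m X)

/-- The radius. -/
noncomputable def rr (X : Pt) : ℝ := √(X 1 ^ 2 + X 2 ^ 2)

theorem rr_nonneg (X : Pt) : 0 ≤ rr X := Real.sqrt_nonneg _

theorem rr_sq (X : Pt) : rr X ^ 2 = X 1 ^ 2 + X 2 ^ 2 := Real.sq_sqrt (by positivity)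

theorem norm_zb (X : Pt) : ‖zb X‖ = rr X := by
  rw [Complex.norm_eq_sqrt_sq_add_sq]; simp [zb, rr]

theorem zt_mul_zb (X : Pt) : zt X * zb X = ((rr X : ℝ) : ℂ) ^ 2 := by
  rw [← Complex.ofReal_pow, rr_sq]
  apply Complex.ext <;> simp [zt, zb, sq]
  ring

theorem Dl_re (m : ℝ) (X : Pt) : (Dl m X).re = X 1 ^ 2 + X 2 ^ 2 - X 0 ^ 2 + m ^ 2 := by
  simp [Dl, zt, zb, tau, sq]; ring

theorem Dl_im (m : ℝ) (X : Pt) : (Dl m X).im = -(2 * X 0 * m) := by
  simp [Dl, zt, zb, tau, sq]; ring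

theorem Dl_mem {m : ℝ} (hm : 0 < m) (X : Pt) : Dl m X ∈ slitPlane := by
  rw [mem_slitPlane_iff, Dl_re, Dl_im]
  by_cases h : X 0 = 0
  · left; rw [h]
    have : 0 < X 1 ^ 2 + X 2 ^ 2 + m ^ 2 := by positivity
    linarith
  · right
    have : 2 * X 0 * m ≠ 0 := by positivity
    simpa using this

theorem sqrt_sq' (z : ℂ) : Complex.sqrt z ^ 2 = z := by
  unfold Complex.sqrt
  exact_mod_cast Complex.cpow_nat_inv_pow z (n := 2) two_ne_zero

theorem sqrt_re_nonneg (z : ℂ) : 0 ≤ (Complex.sqrt z).re := by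
  unfold Complex.sqrt
  rw [Complex.cpow_inv_two_re]; exact Real.sqrt_nonneg _

theorem ss_sq (m : ℝ) (X : Pt) : ss m X ^ 2 = tau m X ^ 2 - zt X * zb X := by
  rw [ss, mul_pow, sqrt_sq', I_sq, Dl]; ring

theorem ss_im_nonneg (m : ℝ) (X : Pt) : 0 ≤ (ss m X).im := by
  simpa [ss] using sqrt_re_nonneg _

theorem ss_re_mul_im (m : ℝ) (X : Pt) : (ss m X).re * (ss m X).im = X 0 * m := by
  have := congrArg Complex.im (ss_sq m X)
  simp [sq, tau, zt, zb] at this
  linarith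

theorem ss_re_sq (m : ℝ) (X : Pt) :
    (ss m X).re ^ 2 - (ss m X).im ^ 2 = X 0 ^ 2 - m ^ 2 - (X 1 ^ 2 + X 2 ^ 2) := by
  have := congrArg Complex.re (ss_sq m X)
  simp [sq, tau, zt, zb] at this
  linarith

theorem le_ss_im {m : ℝ} (hm : 0 < m) (X : Pt) : m ≤ (ss m X).im := by
  have h0 := ss_im_nonneg m X
  have h1 := ss_re_mul_im m X
  have h2 := ss_re_sq m X
  generalize (ss m X).re = q at h1 h2
  generalize (ss m X).im = p at h0 h1 h2
  by_contra h
  push Not at h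
  have h3 : p ^ 2 < m ^ 2 := by nlinarith
  have h4 : q ^ 2 < X 0 ^ 2 := by nlinarith [sq_nonneg (X 1), sq_nonneg (X 2)]
  have h5 : q ^ 2 * p ^ 2 = X 0 ^ 2 * m ^ 2 := by rw [← mul_pow, h1, mul_pow]
  have h6 : q ^ 2 * p ^ 2 ≤ q ^ 2 * m ^ 2 := mul_le_mul_of_nonneg_left h3.le (sq_nonneg q)
  have h7 : q ^ 2 * m ^ 2 < X 0 ^ 2 * m ^ 2 := mul_lt_mul_of_pos_right h4 (by positivity)
  linarith

theorem ss_re_mul_nonneg {m : ℝ} (hm : 0 < m) (X : Pt) : 0 ≤ (ss m X).re * X 0 := by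
  have h0 := le_ss_im hm X
  have h1 := ss_re_mul_im m X
  have hp : 0 < (ss m X).im := lt_of_lt_of_le hm h0
  have h2 : ((ss m X).re * X 0) * (ss m X).im = X 0 ^ 2 * m := by
    rw [mul_right_comm, h1]; ring
  by_contra h
  push Not at h
  have h3 : ((ss m X).re * X 0) * (ss m X).im < 0 := mul_neg_of_neg_of_pos h hp
  have h4 : 0 ≤ X 0 ^ 2 * m := by positivity
  linarith

theorem ss_ne {m : ℝ} (hm : 0 < m) (X : Pt) : ss m X ≠ 0 := by
  intro h
  have := le_ss_im hm X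
  rw [h] at this
  simp at this
  linarith

theorem le_norm_ss {m : ℝ} (hm : 0 < m) (X : Pt) : m ≤ ‖ss m X‖ :=
  (le_ss_im hm X).trans ((le_abs_self _).trans (Complex.abs_im_le_norm _))

theorem le_norm_den {m : ℝ} (hm : 0 < m) (X : Pt) : 2 * m ≤ ‖tau m X + ss m X‖ := by
  refine le_trans ?_ ((le_abs_self _).trans (Complex.abs_im_le_norm _))
  have := le_ss_im hm X
  simp [tau]
  linarith

theorem den_ne {m : ℝ} (hm : 0 < m) (X : Pt) : tau m X + ss m X ≠ 0 := by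
  intro h
  have := le_norm_den hm X
  rw [h] at this
  simp at this
  linarith

theorem zt_sg {m : ℝ} (hm : 0 < m) (X : Pt) : zt X * sg m X + tau m X = ss m X := by
  have h := den_ne hm X
  have h2 := ss_sq m X
  unfold sg
  field_simp
  linear_combination -h2

theorem sg_quad {m : ℝ} (hm : 0 < m) (X : Pt) :
    zt X * sg m X ^ 2 + 2 * tau m X * sg m X + zb X = 0 := by
  have h := den_ne hm X
  have h1 := zt_sg hm X
  have h2 : sg m X * (tau m X + ss m X) = -zb X := by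
    unfold sg; field_simp
  linear_combination sg m X * h1 + h2

theorem rr_le_norm_den {m : ℝ} (hm : 0 < m) (X : Pt) : rr X ≤ ‖tau m X + ss m X‖ := by
  have h1 : (tau m X + ss m X) * (tau m X - ss m X) = ((rr X : ℝ) : ℂ) ^ 2 := by
    rw [← zt_mul_zb]; linear_combination -ss_sq m X
  have h2 : ‖tau m X + ss m X‖ * ‖tau m X - ss m X‖ = rr X ^ 2 := by
    rw [← norm_mul, h1]; simp
  have h3 : ‖tau m X - ss m X‖ ≤ ‖tau m X + ss m X‖ := by
    rw [← sq_le_sq₀ (norm_nonneg _) (norm_nonneg _), Complex.sq_norm, Complex.sq_norm,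
      Complex.normSq_apply, Complex.normSq_apply]
    have a1 := ss_re_mul_nonneg hm X
    have a2 := mul_nonneg hm.le (ss_im_nonneg m X)
    simp [tau]
    nlinarith
  rw [← sq_le_sq₀ (rr_nonneg X) (norm_nonneg _), ← h2, sq]
  exact mul_le_mul_of_nonneg_left h3 (norm_nonneg _)

theorem norm_sg_le_one {m : ℝ} (hm : 0 < m) (X : Pt) : ‖sg m X‖ ≤ 1 := by
  unfold sg
  rw [norm_div, norm_neg, norm_zb]
  exact div_le_one_of_le₀ (rr_le_norm_den hm X) (norm_nonneg _)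

theorem norm_sg_le_half (X : Pt) : ‖sg 1 X‖ ≤ rr X / 2 := by
  unfold sg
  rw [norm_div, norm_neg, norm_zb]
  have := le_norm_den one_pos X
  exact div_le_div_of_nonneg_left (rr_nonneg X) (by norm_num) (by linarith)

theorem norm_ss_pow (m : ℝ) (X : Pt) :
    ‖ss m X‖ ^ 4 = ((X 0 - rr X) ^ 2 + m ^ 2) * ((X 0 + rr X) ^ 2 + m ^ 2) := by
  have h1 : ss m X ^ 2 = (tau m X - (rr X : ℂ)) * (tau m X + (rr X : ℂ)) := by
    rw [ss_sq, zt_mul_zb]; ring
  have h2 : ‖ss m X‖ ^ 4 = ‖ss m X ^ 2‖ ^ 2 := by rw [norm_pow]; ring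
  rw [h2, h1, norm_mul, mul_pow, Complex.sq_norm, Complex.sq_norm, Complex.normSq_apply,
    Complex.normSq_apply]
  simp [tau]
  ring

theorem norm_ss_mono {M : ℝ} (hM : 1 ≤ M) (X : Pt) : ‖ss 1 X‖ ≤ ‖ss M X‖ := by
  refine le_of_pow_le_pow_left₀ (n := 4) (by norm_num) (norm_nonneg _) ?_
  rw [norm_ss_pow, norm_ss_pow]
  have : (1 : ℝ) ^ 2 ≤ M ^ 2 := by gcongr
  gcongr

theorem norm_sg_sub {M : ℝ} (hM : 1 ≤ M) (X : Pt) :
    ‖sg 1 X - sg M X‖ ≤ 2 * M * ‖ss 1 X‖⁻¹ := by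
  have hM0 : 0 < M := by linarith
  have q1 := sg_quad one_pos X
  have q2 := sg_quad hM0 X
  have z1 := zt_sg one_pos X
  have z2 := zt_sg hM0 X
  have ht : tau M X = tau 1 X + ((M - 1 : ℝ) : ℂ) * I := by
    simp [tau]; ring
  have key : (sg 1 X - sg M X) * (ss 1 X + (ss M X - ((M - 1 : ℝ) : ℂ) * I))
      = 2 * (((M - 1 : ℝ) : ℂ) * I) * sg M X := by
    rw [ht] at q2 z2
    linear_combination q1 - q2 - (sg 1 X - sg M X) * (z1 + z2)
  have hn : ‖ss 1 X‖ ≤ ‖ss 1 X + (ss M X - ((M - 1 : ℝ) : ℂ) * I)‖ := by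
    rw [← sq_le_sq₀ (norm_nonneg _) (norm_nonneg _), Complex.sq_norm, Complex.sq_norm,
      Complex.normSq_apply, Complex.normSq_apply]
    have a1 := ss_re_mul_im 1 X
    have a2 := ss_re_mul_im M X
    have b1 := le_ss_im one_pos X
    have b2 := le_ss_im hM0 X
    have c : 0 ≤ (ss 1 X).re * (ss M X).re := by
      have h1 : ((ss 1 X).re * (ss M X).re) * ((ss 1 X).im * (ss M X).im) = X 0 ^ 2 * M := by
        calc _ = ((ss 1 X).re * (ss 1 X).im) * ((ss M X).re * (ss M X).im) := by ring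
          _ = _ := by rw [a1, a2]; ring
      have h2 : 0 < (ss 1 X).im * (ss M X).im := mul_pos (by linarith) (by linarith)
      by_contra h
      push Not at h
      have h3 := mul_neg_of_neg_of_pos h h2
      have h4 : 0 ≤ X 0 ^ 2 * M := by positivity
      linarith
    have d : 0 ≤ (ss 1 X).im * ((ss M X).im - (M - 1)) := mul_nonneg (by linarith) (by linarith)
    simp
    nlinarith [sq_nonneg (ss M X).re, sq_nonneg ((ss M X).im - (M - 1))]
  have hs : 0 < ‖ss 1 X‖ := norm_pos_iff.mpr (ss_ne one_pos X)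
  have h5 : ‖sg 1 X - sg M X‖ * ‖ss 1 X + (ss M X - ((M - 1 : ℝ) : ℂ) * I)‖ ≤ 2 * M := by
    rw [← norm_mul, key, norm_mul, norm_mul, norm_mul, Complex.norm_I, Complex.norm_real,
      Real.norm_eq_abs, abs_of_nonneg (by linarith : (0 : ℝ) ≤ M - 1)]
    have := norm_sg_le_one hM0 X
    have h6 : ‖(2 : ℂ)‖ = 2 := by simp
    rw [h6]
    nlinarith [norm_nonneg (sg M X)]
  rw [← div_eq_mul_inv, le_div_iff₀ hs]
  exact le_trans (mul_le_mul_of_nonneg_left hn (norm_nonneg _)) h5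

theorem contDiff_coord (i : Fin 3) : ContDiff ℝ ∞ (fun X : Pt => ((X i : ℝ) : ℂ)) :=
  Complex.ofRealCLM.contDiff.comp (contDiff_apply ℝ ℝ i)

theorem contDiff_zt : ContDiff ℝ ∞ zt :=
  (contDiff_coord 1).add ((contDiff_coord 2).mul contDiff_const)

theorem contDiff_zb : ContDiff ℝ ∞ zb :=
  (contDiff_coord 1).sub ((contDiff_coord 2).mul contDiff_const)

theorem contDiff_tau (m : ℝ) : ContDiff ℝ ∞ (tau m) :=
  (contDiff_coord 0).add contDiff_const

theorem contDiff_Dl (m : ℝ) : ContDiff ℝ ∞ (Dl m) :=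
  (contDiff_zt.mul contDiff_zb).sub ((contDiff_tau m).pow 2)

theorem contDiff_ss {m : ℝ} (hm : 0 < m) : ContDiff ℝ ∞ (ss m) := by
  refine contDiff_const.mul ?_
  rw [contDiff_iff_contDiffAt]
  intro X
  have h1 : AnalyticAt ℂ Complex.sqrt (Dl m X) :=
    Complex.differentiableOn_sqrt.analyticAt (Complex.isOpen_slitPlane.mem_nhds (Dl_mem hm X))
  have h2 : ContDiffAt ℝ ∞ Complex.sqrt (Dl m X) := (h1.contDiffAt (n := ∞)).restrict_scalars ℝ
  exact h2.comp X (contDiff_Dl m).contDiffAt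

theorem contDiff_sg {m : ℝ} (hm : 0 < m) : ContDiff ℝ ∞ (sg m) := by
  have h := contDiff_zb.neg.mul (((contDiff_tau m).add (contDiff_ss hm)).inv (den_ne hm))
  have e : sg m = fun X => -zb X * (tau m X + ss m X)⁻¹ := by
    funext X; rw [sg, div_eq_mul_inv]
  rw [e]; exact h

theorem hasFDerivAt_coord (i : Fin 3) (X : Pt) :
    HasFDerivAt (fun X : Pt => ((X i : ℝ) : ℂ))
      (Complex.ofRealCLM.comp (ContinuousLinearMap.proj (R := ℝ) (φ := fun _ : Fin 3 => ℝ) i)) X :=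
  (Complex.ofRealCLM.comp (ContinuousLinearMap.proj (R := ℝ) (φ := fun _ : Fin 3 => ℝ) i)).hasFDerivAt

theorem fderiv_sg {m : ℝ} (hm : 0 < m) (X h : Pt) :
    fderiv ℝ (sg m) X h
      = -(sg m X ^ 2 * zt h + 2 * sg m X * (h 0 : ℂ) + zb h) / (2 * ss m X) := by
  have hσ : HasFDerivAt (sg m) (fderiv ℝ (sg m) X) X :=
    ((contDiff_sg hm).differentiable (by simp) X).hasFDerivAt
  have c0 := hasFDerivAt_coord 0 X
  have c1 := hasFDerivAt_coord 1 X
  have c2 := hasFDerivAt_coord 2 X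
  have hzt := c1.fun_add (c2.mul_const I)
  have hzb := c1.fun_sub (c2.mul_const I)
  have htau := c0.add_const ((m : ℂ) * I)
  have hall := ((hzt.fun_mul (hσ.fun_mul hσ)).fun_add
    ((htau.const_mul 2).fun_mul hσ)).fun_add hzb
  have hzero : (fun y : Pt => (((y 1 : ℝ) : ℂ) + ((y 2 : ℝ) : ℂ) * I) * (sg m y * sg m y)
      + 2 * (((y 0 : ℝ) : ℂ) + (m : ℂ) * I) * sg m y + (((y 1 : ℝ) : ℂ) - ((y 2 : ℝ) : ℂ) * I))
      = fun _ => (0 : ℂ) := by
    funext y
    have := sg_quad hm y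
    simp only [zt, zb, tau] at this
    linear_combination this
  rw [hzero] at hall
  have hu := hall.unique (hasFDerivAt_const (0 : ℂ) X)
  have hv := congrArg (fun L : Pt →L[ℝ] ℂ => L h) hu
  simp at hv
  have hs := ss_ne hm X
  have hz := zt_sg hm X
  simp only [zt, zb, tau] at hz ⊢
  field_simp
  linear_combination hv - 2 * fderiv ℝ (sg m) X h * hz

end Pool.Agent.MP_515557_an.H65
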